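import Pool.Agent.H620R2.Gauge.A1

/-!
# Decision trees
-/

set_option autoImplicit false

namespace Pool.Agent.W2helper56.PK

open Pool.Agent.NPC Pool.Agent.H620R2.Gauge

/-- A computation which asks questions in `Z` to an oracle. -/
inductive DT (Z β : Type) : Type
  | ret : β → DT Z β
  | ask : Z → (Bool → DT Z β) → DT Z β

namespace DT

variable {Z β γ : Type}

/-- the result with the oracle `O` -/
def run (O : Z → Bool) : DT Z β → β
  | ret b => b
  | ask z k => (k (O z)).run O

/-- the questions asked with the oracle `O` -/
def qs (O : Z → Bool) : DT Z β → List Z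
  | ret _ => []
  | ask z k => z :: (k (O z)).qs O

/-- at most `n` questions -/
def Le : ℕ → DT Z β → Prop
  | _, ret _ => True
  | 0, ask _ _ => False
  | n + 1, ask _ k => ∀ b, Le n (k b)

/-- all questions have the property `P` -/
def All (P : Z → Prop) : DT Z β → Prop
  | ret _ => True
  | ask z k => P z ∧ ∀ b, All P (k b)

/-- one computation after the other -/
def bind : DT Z β → (β → DT Z γ) → DT Z γ
  | ret b, f => f b
  | ask z k, f => ask z fun b => (k b).bind f

/-- answer some of the questions without asking -/
def fix (f : Z → Option Bool) : DT Z β → DT Z β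
  | ret b => ret b
  | ask z k => match f z with
    | some b => (k b).fix f
    | none => ask z fun b => (k b).fix f

/-- the list of the questions and the answers together with the result -/
def log : DT Z β → DT Z (β × List (Z × Bool))
  | ret b => ret (b, [])
  | ask z k => ask z fun b => (k b).log.bind fun r => ret (r.1, (z, b) :: r.2)

/-- ask a list of questions -/
def asks : List Z → DT Z (List Bool)
  | [] => ret []
  | z :: l => ask z fun b => (asks l).bind fun a => ret (b :: a)

end DT

/-- follow a list of answers; stay at the result if it is reached -/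
def DT.at {Z β : Type} : DT Z β → List Bool → DT Z β
  | DT.ret b, _ => DT.ret b
  | DT.ask z k, [] => DT.ask z k
  | DT.ask _ k, b :: h => (k b).at h

namespace DT

variable {Z β γ : Type}

@[simp] theorem run_ret (O : Z → Bool) (b : β) : (ret b : DT Z β).run O = b := rfl

@[simp] theorem run_ask (O : Z → Bool) (z : Z) (k : Bool → DT Z β) :
    (ask z k).run O = (k (O z)).run O := rfl

@[simp] theorem qs_ret (O : Z → Bool) (b : β) : (ret b : DT Z β).qs O = [] := rfl

@[simp] theorem qs_ask (O : Z → Bool) (z : Z) (k : Bool → DT Z β) :
    (ask z k).qs O = z :: (k (O z)).qs O := rfl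

@[simp] theorem le_ret (n : ℕ) (b : β) : (ret b : DT Z β).Le n := by cases n <;> trivial

@[simp] theorem le_zero_ask (z : Z) (k : Bool → DT Z β) : ¬ (ask z k).Le 0 := fun h => h

@[simp] theorem le_succ_ask (n : ℕ) (z : Z) (k : Bool → DT Z β) :
    (ask z k).Le (n + 1) ↔ ∀ b, (k b).Le n := Iff.rfl

@[simp] theorem all_ret (P : Z → Prop) (b : β) : (ret b : DT Z β).All P := trivial

@[simp] theorem all_ask (P : Z → Prop) (z : Z) (k : Bool → DT Z β) :
    (ask z k).All P ↔ P z ∧ ∀ b, (k b).All P := Iff.rfl

theorem Le.mono {n m : ℕ} (h : n ≤ m) : ∀ {D : DT Z β}, D.Le n → D.Le m := by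
  intro D
  induction D generalizing n m with
  | ret b => intro _; simp
  | ask z k ih =>
    intro hD
    obtain _ | n := n
    · exact absurd hD (le_zero_ask z k)
    obtain _ | m := m
    · omega
    · exact fun b => ih b (by omega) (hD b)

theorem All.mono {P Q : Z → Prop} (h : ∀ z, P z → Q z) : ∀ {D : DT Z β}, D.All P → D.All Q := by
  intro D
  induction D with
  | ret b => intro _; trivial
  | ask z k ih => exact fun hD => ⟨h z hD.1, fun b => ih b (hD.2 b)⟩

theorem run_congr {O O' : Z → Bool} : ∀ {D : DT Z β}, (∀ z ∈ D.qs O, O' z = O z) →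
    D.run O' = D.run O ∧ D.qs O' = D.qs O := by
  intro D
  induction D with
  | ret b => intro _; exact ⟨rfl, rfl⟩
  | ask z k ih =>
    intro h
    have h1 : O' z = O z := h z (by simp)
    have h2 := ih (O z) fun y hy => h y (by simp [hy])
    rw [run_ask, run_ask, qs_ask, qs_ask, h1, h2.1, h2.2]
    exact ⟨rfl, rfl⟩

theorem length_qs {n : ℕ} (O : Z → Bool) : ∀ {D : DT Z β}, D.Le n → (D.qs O).length ≤ n := by
  intro D
  induction D generalizing n with
  | ret b => intro _; simp
  | ask z k ih =>
    intro hD
    obtain _ | n := n
    · exact absurd hD (le_zero_ask z k)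
    · have := ih (O z) (hD (O z))
      rw [qs_ask, List.length_cons]
      omega

theorem All.qs {P : Z → Prop} (O : Z → Bool) : ∀ {D : DT Z β}, D.All P → ∀ z ∈ D.qs O, P z := by
  intro D
  induction D with
  | ret b => intro _ z hz; simp at hz
  | ask z k ih =>
    intro hD y hy
    rw [qs_ask, List.mem_cons] at hy
    rcases hy with rfl | hy
    · exact hD.1
    · exact ih (O z) (hD.2 _) y hy

@[simp] theorem run_bind (O : Z → Bool) (D : DT Z β) (f : β → DT Z γ) :
    (D.bind f).run O = (f (D.run O)).run O := by
  induction D with
  | ret b => rfl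
  | ask z k ih => exact ih (O z)

@[simp] theorem qs_bind (O : Z → Bool) (D : DT Z β) (f : β → DT Z γ) :
    (D.bind f).qs O = D.qs O ++ (f (D.run O)).qs O := by
  induction D with
  | ret b => rfl
  | ask z k ih =>
    change z :: ((k (O z)).bind f).qs O = _
    rw [ih (O z)]
    rfl

theorem le_bind {n m : ℕ} {f : β → DT Z γ} (hf : ∀ b, (f b).Le m) : ∀ {D : DT Z β}, D.Le n →
    (D.bind f).Le (n + m) := by
  intro D
  induction D generalizing n with
  | ret b => exact fun _ => (hf b).mono (by omega)
  | ask z k ih =>
    intro hD
    obtain _ | n := n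
    · exact absurd hD (le_zero_ask z k)
    · rw [Nat.succ_add]
      exact fun b => ih b (hD b)

theorem all_bind {P : Z → Prop} {f : β → DT Z γ} (hf : ∀ b, (f b).All P) : ∀ {D : DT Z β},
    D.All P → (D.bind f).All P := by
  intro D
  induction D with
  | ret b => exact fun _ => hf b
  | ask z k ih => exact fun hD => ⟨hD.1, fun b => ih b (hD.2 b)⟩

@[simp] theorem run_log (O : Z → Bool) (D : DT Z β) :
    D.log.run O = (D.run O, (D.qs O).map fun z => (z, O z)) := by
  induction D with
  | ret b => rfl
  | ask z k ih =>
    change ((k (O z)).log.bind fun r => ret (r.1, (z, O z) :: r.2)).run O = _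
    rw [run_bind, ih (O z)]
    rfl

@[simp] theorem qs_log (O : Z → Bool) (D : DT Z β) : D.log.qs O = D.qs O := by
  induction D with
  | ret b => rfl
  | ask z k ih =>
    change z :: ((k (O z)).log.bind fun r => ret (r.1, (z, O z) :: r.2)).qs O = _
    rw [qs_bind, ih (O z)]
    simp

theorem le_log {n : ℕ} : ∀ {D : DT Z β}, D.Le n → D.log.Le n := by
  intro D
  induction D generalizing n with
  | ret b => intro _; simp [log]
  | ask z k ih =>
    intro hD
    obtain _ | n := n
    · exact absurd hD (le_zero_ask z k)
    · intro b
      exact le_bind (m := 0) (fun _ => le_ret _ _) (ih b (hD b))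

theorem all_log {P : Z → Prop} : ∀ {D : DT Z β}, D.All P → D.log.All P := by
  intro D
  induction D with
  | ret b => intro _; trivial
  | ask z k ih => exact fun hD => ⟨hD.1, fun b => all_bind (fun _ => all_ret _ _) (ih b (hD.2 b))⟩

theorem run_fix (f : Z → Option Bool) (O : Z → Bool) (D : DT Z β) :
    (D.fix f).run O = D.run fun z => (f z).getD (O z) := by
  induction D with
  | ret b => rfl
  | ask z k ih =>
    rw [fix, run_ask]
    cases h : f z with
    | some b => simpa using ih b
    | none => simpa using ih (O z)

theorem qs_fix (f : Z → Option Bool) (O : Z → Bool) (D : DT Z β) :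
    (D.fix f).qs O = (D.qs fun z => (f z).getD (O z)).filter fun z => (f z).isNone := by
  induction D with
  | ret b => rfl
  | ask z k ih =>
    rw [fix, qs_ask, List.filter_cons]
    cases h : f z with
    | some b => simpa using ih b
    | none => simpa using ih (O z)

theorem le_fix (f : Z → Option Bool) {n : ℕ} : ∀ {D : DT Z β}, D.Le n → (D.fix f).Le n := by
  intro D
  induction D generalizing n with
  | ret b => intro _; simp [fix]
  | ask z k ih =>
    intro hD
    obtain _ | n := n
    · exact absurd hD (le_zero_ask z k)
    · rw [fix]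
      cases h : f z with
      | some b => exact (ih b (hD b)).mono (by omega)
      | none => exact fun b => ih b (hD b)

theorem all_fix {P : Z → Prop} (f : Z → Option Bool) : ∀ {D : DT Z β}, D.All P →
    (D.fix f).All P := by
  intro D
  induction D with
  | ret b => intro _; trivial
  | ask z k ih =>
    intro hD
    rw [fix]
    cases h : f z with
    | some b => exact ih b (hD.2 b)
    | none => exact ⟨hD.1, fun b => ih b (hD.2 b)⟩

@[simp] theorem run_asks (O : Z → Bool) (l : List Z) : (asks l).run O = l.map O := by
  induction l with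
  | nil => rfl
  | cons z l ih =>
    change ((asks l).bind fun a => ret (O z :: a)).run O = _
    rw [run_bind, ih]
    rfl

@[simp] theorem qs_asks (O : Z → Bool) (l : List Z) : (asks l).qs O = l := by
  induction l with
  | nil => rfl
  | cons z l ih =>
    change z :: ((asks l).bind fun a => ret (O z :: a)).qs O = _
    rw [qs_bind, ih]
    simp

theorem le_asks : ∀ l : List Z, (asks l).Le l.length
  | [] => le_ret _ _
  | _ :: l => fun _ => le_bind (m := 0) (fun _ => le_ret _ _) (le_asks l)

theorem all_asks {P : Z → Prop} : ∀ l : List Z, (∀ z ∈ l, P z) → (asks l).All P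
  | [], _ => trivial
  | z :: l, h => ⟨h z (by simp), fun _ => all_bind (fun _ => all_ret _ _)
      (all_asks l fun y hy => h y (by simp [hy]))⟩

/-- after `n` answers of `O` the result is reached -/
theorem at_answers {n : ℕ} (O : Z → Bool) : ∀ {D : DT Z β} (h : List Bool), D.Le n →
    n ≤ h.length → (∀ (i : ℕ) (hi : i < (D.qs O).length), ∃ hj : i < h.length,
      h[i] = O (D.qs O)[i]) → D.at h = ret (D.run O) := by
  intro D
  induction D generalizing n with
  | ret b => intro h _ _ _; rfl
  | ask z k ih =>
    intro h hD hn hO
    obtain _ | n := n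
    · exact absurd hD (le_zero_ask z k)
    obtain ⟨h0, h1⟩ := hO 0 (by simp)
    obtain _ | ⟨b, h⟩ := h
    · simp at h0
    · simp only [List.getElem_cons_zero, qs_ask] at h1
      subst h1
      refine ih (O z) h (hD _) (by simpa using hn) fun i hi => ?_
      obtain ⟨h2, h3⟩ := hO (i + 1) (by simpa using hi)
      exact ⟨by simpa using h2, by simpa using h3⟩

end DT

/-- the value of the output of an algorithm -/
def ac (M : Alg) (O : Oracle) (x : List Bool) : List Bool := (M.out O x).getD []

/-- an algorithm as a decision tree -/
def Alg.treeAux (M : Alg) (x : List Bool) : ℕ → List Bool → DT (List Bool) (List Bool)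
  | 0, _ => DT.ret []
  | n + 1, a =>
    match M.D (pairBits x a) with
    | [] => DT.ret []
    | true :: z => DT.ret z
    | false :: q => DT.ask q fun b => Alg.treeAux M x n (a ++ [b])

/-- an algorithm as a decision tree -/
def tree (M : Alg) (x : List Bool) : DT (List Bool) (List Bool) :=
  Alg.treeAux M x (M.p.eval x.length) []

theorem treeAux_run (M : Alg) (O : Oracle) (x : List Bool) : ∀ (n : ℕ) (a : List Bool),
    (Alg.treeAux M x n a).run O = (M.run O x n a).getD [] := by
  intro n
  induction n with
  | zero => intro a; rfl
  | succ n ih =>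
    intro a
    rw [Alg.treeAux, Alg.run]
    rcases M.D (pairBits x a) with _ | ⟨b, z⟩
    · rfl
    · cases b with
      | true => rfl
      | false => exact ih _

theorem tree_run (M : Alg) (O : Oracle) (x : List Bool) : (tree M x).run O = ac M O x :=
  treeAux_run M O x _ _

theorem treeAux_le (M : Alg) (x : List Bool) : ∀ (n : ℕ) (a : List Bool),
    (Alg.treeAux M x n a).Le n := by
  intro n
  induction n with
  | zero => intro a; exact DT.le_ret _ _
  | succ n ih =>
    intro a
    rw [Alg.treeAux]
    rcases M.D (pairBits x a) with _ | ⟨b, z⟩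
    · exact DT.le_ret _ _
    · cases b with
      | true => exact DT.le_ret _ _
      | false => exact fun b => ih _

theorem tree_le (M : Alg) (x : List Bool) : (tree M x).Le (M.p.eval x.length) :=
  treeAux_le M x _ _

/-- the questions are polynomially bounded -/
theorem tree_all (M : Alg) : ∃ b : Polynomial ℕ, ∀ x : List Bool,
    (tree M x).All fun z => z.length ≤ b.eval x.length := by
  obtain ⟨b, hb⟩ := M.next_length
  refine ⟨b, fun x => ?_⟩
  have key : ∀ (n : ℕ) (a : List Bool), a.length + n ≤ M.p.eval x.length →
      (Alg.treeAux M x n a).All fun z => z.length ≤ b.eval x.length := by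
    intro n
    induction n with
    | zero => intro a _; trivial
    | succ n ih =>
      intro a ha
      have h1 := hb x a (by omega)
      rw [Alg.treeAux]
      rcases h : M.D (pairBits x a) with _ | ⟨c, z⟩
      · trivial
      · rw [h, List.length_cons] at h1
        cases c with
        | true => trivial
        | false => exact ⟨by dsimp only; omega, fun b => ih _ (by simp; omega)⟩
  exact key _ _ (by simp)

/-- the output is polynomially bounded -/
theorem ac_length (M : Alg) : ∃ b : Polynomial ℕ, ∀ (O : Oracle) (x : List Bool),
    (ac M O x).length ≤ b.eval x.length := by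
  obtain ⟨b, hb⟩ := M.out_length
  refine ⟨b, fun O x => ?_⟩
  unfold ac
  rcases h : M.out O x with _ | z
  · simp
  · exact hb O x z h

end Pool.Agent.W2helper56.PK
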