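import Pool.Agent.H620R2.Gauge.Defs
import Mathlib.Order.Filter.AtTopBot.Basic
import Mathlib.Data.Real.Basic

/-!
# One-way functions, public-key encryption and `UP` relative to an oracle

(Continues `Pool.Agent.H620R2.Gauge.Defs`.)
-/

set_option autoImplicit false

namespace Pool.Agent.W2helper56.PK

open Pool.Agent.NPC Pool.Agent.H620R2.Gauge

/-- The string `1 ⋯ 1` of length `n`. -/
abbrev un (n : ℕ) : List Bool := List.replicate n true

/-- The probability of an event for a uniformly random element of a finite set. -/
noncomputable def prob {α : Type} [Fintype α] (P : α → Prop) : ℝ :=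
  (Nat.card {a // P a} : ℝ) / Fintype.card α

/-- The outcomes of `k` coins. -/
abbrev Coins (k : ℕ) : Type := Fin k → Bool

/-- The sequence is negligible: for every `c` it is at most `1/n^c` for all large `n`. -/
def Negligible (ε : ℕ → ℝ) : Prop := ∀ c : ℕ, ∀ᶠ n : ℕ in Filter.atTop, ε n ≤ 1 / (n : ℝ) ^ c

/-- `UP` relative to `O`: witnesses of polynomial length which are checked in polynomial time
relative to `O`; no string has two different witnesses. -/
def IsUP (O : Oracle) (L : Set (List Bool)) : Prop :=
  ∃ (V : List Bool → List Bool) (p : Polynomial ℕ), IsFP O V ∧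
    (∀ x w w' : List Bool, w.length ≤ p.eval x.length → w'.length ≤ p.eval x.length →
      V (pairBits w x) = [true] → V (pairBits w' x) = [true] → w = w') ∧
    ∀ x, x ∈ L ↔ ∃ w : List Bool, w.length ≤ p.eval x.length ∧ V (pairBits w x) = [true]

/-! ### One-way functions -/

/-- The probability that the inverter `I` (with `p(n)` coins, the input `1^n` and the value `f x`)
finds a preimage of `f x`, for a random string `x` of length `n`. -/
noncomputable def invPr (f I : List Bool → List Bool) (p : Polynomial ℕ) (n : ℕ) : ℝ :=
  prob fun t : Coins n × Coins (p.eval n) =>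
    f (I (pairBits (List.ofFn t.2) (pairBits (un n) (f (List.ofFn t.1))))) = f (List.ofFn t.1)

/-- There is a one-way function relative to `O`: it is computable in polynomial time relative to
`O`, and every randomized polynomial-time algorithm relative to `O` finds preimages with
negligible probability only. -/
def OWF (O : Oracle) : Prop :=
  ∃ f : List Bool → List Bool, IsFP O f ∧
    ∀ (I : List Bool → List Bool) (p : Polynomial ℕ), IsFP O I → Negligible (invPr f I p)

/-! ### Public-key encryption -/

/-- A scheme for the encryption of one bit. With the security parameter `n` and `p(n)` coins `u`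
the public key is `Pk ⟨u, 1^n⟩` and the secret key `Sk ⟨u, 1^n⟩`; with the coins `v` the encryption
of the bit `b` is `Enc ⟨v, ⟨pk, b⟩⟩`; with the coins `w` the decryption of `c` is
`Dec ⟨w, ⟨sk, c⟩⟩`. -/
structure Scheme : Type where
  /-- the public key -/
  Pk : List Bool → List Bool
  /-- the secret key -/
  Sk : List Bool → List Bool
  /-- encryption -/
  Enc : List Bool → List Bool
  /-- decryption -/
  Dec : List Bool → List Bool
  /-- the number of coins -/
  p : Polynomial ℕ

/-- The scheme is computable in polynomial time relative to `O`. -/
def Scheme.InFP (S : Scheme) (O : Oracle) : Prop :=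
  IsFP O S.Pk ∧ IsFP O S.Sk ∧ IsFP O S.Enc ∧ IsFP O S.Dec

/-- The public key for the coins `u`. -/
def Scheme.pk (S : Scheme) (n : ℕ) (u : List Bool) : List Bool := S.Pk (pairBits u (un n))

/-- The encryption of `b` with the coins `v` and the public key for the coins `u`. -/
def Scheme.ct (S : Scheme) (n : ℕ) (u v : List Bool) (b : Bool) : List Bool :=
  S.Enc (pairBits v (pairBits (S.pk n u) [b]))

/-- The decryption (with the coins `w`) of the encryption of `b`. -/
def Scheme.de (S : Scheme) (n : ℕ) (u v w : List Bool) (b : Bool) : List Bool :=
  S.Dec (pairBits w (pairBits (S.Sk (pairBits u (un n))) (S.ct n u v b)))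

/-- The probability that the decryption of an encryption of `b` is not `b`. -/
noncomputable def Scheme.err (S : Scheme) (n : ℕ) (b : Bool) : ℝ :=
  prob fun t : Coins (S.p.eval n) × Coins (S.p.eval n) × Coins (S.p.eval n) =>
    S.de n (List.ofFn t.1) (List.ofFn t.2.1) (List.ofFn t.2.2) b ≠ [b]

/-- The probability that the adversary `A` (with `p(n)` coins) says `1` if it gets the public key
and an encryption of `b`. -/
noncomputable def Scheme.says (S : Scheme) (A : List Bool → List Bool) (p : Polynomial ℕ) (n : ℕ)
    (b : Bool) : ℝ :=
  prob fun t : Coins (S.p.eval n) × Coins (S.p.eval n) × Coins (p.eval n) =>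
    A (pairBits (List.ofFn t.2.2) (pairBits (un n) (pairBits (S.pk n (List.ofFn t.1))
      (S.ct n (List.ofFn t.1) (List.ofFn t.2.1) b)))) = [true]

/-- The advantage of the adversary. -/
noncomputable def Scheme.adv (S : Scheme) (A : List Bool → List Bool) (p : Polynomial ℕ) (n : ℕ) :
    ℝ := |S.says A p n true - S.says A p n false|

/-- There is a public-key encryption scheme relative to `O`: it is computable in polynomial time
relative to `O`, its errors are negligible, and the advantage of every randomized polynomial-time
adversary relative to `O` is negligible. -/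
def PKE (O : Oracle) : Prop :=
  ∃ S : Scheme, S.InFP O ∧ (∀ b, Negligible fun n => S.err n b) ∧
    ∀ (A : List Bool → List Bool) (p : Polynomial ℕ), IsFP O A → Negligible (S.adv A p)

end Pool.Agent.W2helper56.PK
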