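import Pool.Agent.W2helper56.PK.Stm
import Pool.Agent.H620R2.GaugeR.Seq

/-!
# Project PK: assembly
-/

set_option autoImplicit false

namespace Pool.Agent.W2helper56.PK

open Pool.Agent.NPC Pool.Agent.H622R2 Pool.Agent.H620R2.Gauge MeasureTheory

/-! ### Probabilities -/

open Classical in
theorem prob_sum {α : Type} [Fintype α] (P : α → Prop) :
    prob P = (∑ a, if P a then (1 : ℝ) else 0) / Fintype.card α := by
  unfold prob
  rw [Finset.sum_boole, Nat.card_eq_fintype_card, Fintype.card_subtype]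

theorem prob_prod {α β : Type} [Fintype α] [Fintype β] (P : α × β → Prop) :
    prob P = (∑ a, prob fun b => P (a, b)) / Fintype.card α := by
  classical
  simp_rw [prob_sum]
  rw [Fintype.sum_prod_type, Fintype.card_prod]
  push_cast
  rw [← Finset.sum_div, div_div, mul_comm]

theorem prob_nonneg {α : Type} [Fintype α] (P : α → Prop) : 0 ≤ prob P := by
  unfold prob
  positivity

theorem prob_le_one {α : Type} [Fintype α] (P : α → Prop) : prob P ≤ 1 := by
  classical
  unfold prob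
  rcases isEmpty_or_nonempty α with h | h
  · simp
  · rw [div_le_one (by exact_mod_cast Fintype.card_pos), Nat.card_eq_fintype_card]
    exact_mod_cast Fintype.card_subtype_le _

theorem prob_congr {α : Type} [Fintype α] {P Q : α → Prop} (h : ∀ a, P a ↔ Q a) :
    prob P = prob Q := by
  have : P = Q := funext fun a => propext (h a)
  rw [this]

theorem prob_not {α : Type} [Fintype α] [Nonempty α] (P : α → Prop) :
    prob (fun a => ¬ P a) = 1 - prob P := by
  classical
  rw [prob_sum, prob_sum, eq_sub_iff_add_eq, ← add_div, ← Finset.sum_add_distrib]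
  rw [Finset.sum_congr rfl (g := fun _ => (1 : ℝ)) fun a _ => by by_cases h : P a <;> simp [h]]
  rw [Finset.sum_const, Finset.card_univ, nsmul_eq_mul, mul_one, div_self]
  exact_mod_cast Fintype.card_ne_zero

/-! ### The null sets -/

theorem null_of (hw : P_win) (htop : P_top) (hd : P_dens) (W D : ℕ → Oracle → ℝ) (m t : ℕ → ℕ)
    (hloc : ∀ n R R', (∀ u : List Bool, u.length < m n → R u = R' u) →
      W n R = W n R' ∧ D n R = D n R')
    (hW : ∀ n R, 0 ≤ W n R) (hD : ∀ n R, D n R ≤ 1) (ht : ∀ N, ∃ n₁, ∀ n ≥ n₁, N ≤ t n)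
    (hav : ∀ n Λ, (∑ ω : Pos (t n) (m n) → Bool, W n (ext Λ ω)) /
      Fintype.card (Pos (t n) (m n) → Bool) ≤
      (∑ ω : Pos (t n) (m n) → Bool, D n (ext Λ ω)) /
      Fintype.card (Pos (t n) (m n) → Bool) + 3 / 50)
    (n₀ : ℕ) : ranO {R | ∀ n ≥ n₀, D n R ≤ 1 / 100 ∧ 1 / 8 < W n R} = 0 := by
  classical
  by_contra hne
  have hloc' : ∀ n, ∀ R R' : Oracle, (∀ u : List Bool, u.length < m n → R u = R' u) →
      ((D n R ≤ 1 / 100 ∧ 1 / 8 < W n R) ↔ (D n R' ≤ 1 / 100 ∧ 1 / 8 < W n R')) := by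
    intro n R R' h
    rw [(hloc n R R' h).1, (hloc n R R' h).2]
  have hcl : IsClosed {R | ∀ n ≥ n₀, D n R ≤ 1 / 100 ∧ 1 / 8 < W n R} := by
    have : {R | ∀ n ≥ n₀, D n R ≤ 1 / 100 ∧ 1 / 8 < W n R} =
        ⋂ n, ⋂ (_ : n ≥ n₀), {R | D n R ≤ 1 / 100 ∧ 1 / 8 < W n R} := by
      ext R
      simp
    rw [this]
    exact isClosed_iInter fun n => isClosed_iInter fun _ => htop.2 (m n) _ (hloc' n)
  obtain ⟨t₀, ht₀⟩ := hd _ hcl (pos_iff_ne_zero.2 hne)
  obtain ⟨n₁, hn₁⟩ := ht t₀
  set n := max n₀ n₁ with hn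
  obtain ⟨Λ, hΛ⟩ := ht₀ (t n) (hn₁ n (le_max_right _ _))
  have h1 : ranO (cyl Λ (t n) ∩ {R | ∀ n ≥ n₀, D n R ≤ 1 / 100 ∧ 1 / 8 < W n R}) ≤
      ranO (cyl Λ (t n) ∩ {R | D n R ≤ 1 / 100 ∧ 1 / 8 < W n R}) :=
    measure_mono (Set.inter_subset_inter_right _ fun R hR => hR n (le_max_left _ _))
  rw [hw Λ (t n) (m n) _ (hloc' n)] at h1
  have h2 := hΛ.trans h1
  have hpos := htop.1 Λ (t n)
  have hfin : ranO (cyl Λ (t n)) ≠ ⊤ := measure_ne_top _ _
  rw [ENNReal.mul_le_mul_iff_left hpos.ne' hfin] at h2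
  rw [ENNReal.ofReal_le_ofReal_iff (prob_nonneg _)] at h2
  set K : ℝ := ((Fintype.card (Pos (t n) (m n) → Bool) : ℕ) : ℝ) with hK
  have hKpos : 0 < K := by
    rw [hK]
    exact_mod_cast Fintype.card_pos
  set Q : (Pos (t n) (m n) → Bool) → Prop := fun ω =>
    D n (ext Λ ω) ≤ 1 / 100 ∧ 1 / 8 < W n (ext Λ ω) with hQ
  set c : ℝ := ∑ ω : Pos (t n) (m n) → Bool, if Q ω then (1 : ℝ) else 0 with hc
  have h3 : 99 / 100 * K ≤ c := by
    rw [prob_sum, le_div_iff₀ hKpos] at h2
    refine h2.trans (le_of_eq (Finset.sum_congr rfl fun ω _ => ?_))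
    by_cases h : Q ω <;> simp [h]
  have h4 : c * (1 / 8) ≤ ∑ ω : Pos (t n) (m n) → Bool, W n (ext Λ ω) := by
    rw [hc, Finset.sum_mul]
    refine Finset.sum_le_sum fun ω _ => ?_
    split_ifs with h
    · have := h.2
      linarith
    · have := hW n (ext Λ ω)
      linarith
  have h5 : ∑ ω : Pos (t n) (m n) → Bool, D n (ext Λ ω) ≤ K - c * (99 / 100) := by
    have h6 : K = ∑ ω : Pos (t n) (m n) → Bool, (1 : ℝ) := by
      rw [Finset.sum_const, Finset.card_univ, nsmul_eq_mul, mul_one]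
    rw [h6, hc, Finset.sum_mul, ← Finset.sum_sub_distrib]
    refine Finset.sum_le_sum fun ω _ => ?_
    split_ifs with h
    · have := h.1
      linarith
    · have := hD n (ext Λ ω)
      linarith
  have h6 := hav n Λ
  rw [← hK, div_add' _ _ _ hKpos.ne', div_le_div_iff_of_pos_right hKpos] at h6
  linarith

/-! ### The parties -/

/-- the probability that the decryption is wrong, for a random bit -/
noncomputable def eD (σ : AS) (n : ℕ) (O : Oracle) : ℝ :=
  prob fun s : Bool × Coins (σ.p.eval n) × Coins (σ.p.eval n) × Coins (σ.p.eval n) =>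
    (σ.sch O).de n (List.ofFn s.2.1) (List.ofFn s.2.2.1) (List.ofFn s.2.2.2) s.1 ≠ [s.1]

/-- the probability that the adversary is wrong, for a random bit -/
noncomputable def wE (σ : AS) (n : ℕ) (T : Att Bool) (O : Oracle) : ℝ :=
  prob fun s : Bool × Coins (σ.p.eval n) × Coins (σ.p.eval n) =>
    (T ((σ.sch O).pk n (List.ofFn s.2.1))
      ((σ.sch O).ct n (List.ofFn s.2.1) (List.ofFn s.2.2) s.1)).run O ≠ s.1

theorem eD_eq (σ : AS) (n : ℕ) (O : Oracle) :
    eD σ n O = ((σ.sch O).err n true + (σ.sch O).err n false) / 2 := by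
  unfold eD
  rw [prob_prod, Fintype.sum_bool, Fintype.card_bool]
  rfl

theorem says_eq (σ : AS) (n : ℕ) (T : Att Bool) (O : Oracle) (A : List Bool → List Bool)
    (hA : ∀ pk c : List Bool, A (pairBits [] (pairBits (un n) (pairBits pk c))) =
      [(T pk c).run O]) (b : Bool) :
    (σ.sch O).says A 0 n b = prob fun s : Coins (σ.p.eval n) × Coins (σ.p.eval n) =>
      (T ((σ.sch O).pk n (List.ofFn s.1))
        ((σ.sch O).ct n (List.ofFn s.1) (List.ofFn s.2) b)).run O = true := by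
  have e0 : (0 : Polynomial ℕ).eval n = 0 := Polynomial.eval_zero
  have hk : ∀ w : Coins ((0 : Polynomial ℕ).eval n), List.ofFn w = [] := by
    rw [e0]
    intro w
    simp
  have : IsEmpty (Fin ((0 : Polynomial ℕ).eval n)) := by
    rw [e0]
    infer_instance
  unfold Scheme.says
  simp only [hk, hA, List.cons.injEq, and_true]
  unfold prob
  congr 1
  · norm_cast
    refine Nat.card_congr ⟨fun s => ⟨(s.1.1, s.1.2.1), s.2⟩,
      fun s => ⟨(s.1.1, s.1.2, isEmptyElim), s.2⟩, fun s => ?_, fun s => rfl⟩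
    refine Subtype.ext (Prod.ext rfl (Prod.ext rfl ?_))
    funext i
    exact isEmptyElim i
  · have hu : Nonempty (Unique (Coins ((0 : Polynomial ℕ).eval n))) := ⟨Pi.uniqueOfIsEmpty _⟩
    have hc := Fintype.card_eq_one_iff_nonempty_unique.2 hu
    rw [Fintype.card_prod, Fintype.card_prod, Fintype.card_prod, hc, mul_one]
    rfl

theorem wE_eq (σ : AS) (n : ℕ) (T : Att Bool) (O : Oracle) (A : List Bool → List Bool)
    (hA : ∀ pk c : List Bool, A (pairBits [] (pairBits (un n) (pairBits pk c))) =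
      [(T pk c).run O]) :
    wE σ n T O = (1 - ((σ.sch O).says A 0 n true - (σ.sch O).says A 0 n false)) / 2 := by
  unfold wE
  rw [prob_prod, Fintype.sum_bool, Fintype.card_bool, says_eq σ n T O A hA,
    says_eq σ n T O A hA]
  dsimp only
  rw [prob_not]
  have : (prob fun s : Coins (σ.p.eval n) × Coins (σ.p.eval n) =>
      (T ((σ.sch O).pk n (List.ofFn s.1))
        ((σ.sch O).ct n (List.ofFn s.1) (List.ofFn s.2) false)).run O ≠ false) =
      prob fun s : Coins (σ.p.eval n) × Coins (σ.p.eval n) =>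
      (T ((σ.sch O).pk n (List.ofFn s.1))
        ((σ.sch O).ct n (List.ofFn s.1) (List.ofFn s.2) false)).run O = true :=
    prob_congr fun s => by simp
  rw [this]
  push_cast
  ring

theorem exists_as : ∃ f : ℕ → AS, Function.Surjective f := by
  have h1 := CC.poly_countable
  have h2 : Countable Alg := inferInstance
  have h3 : Function.Injective (fun σ : AS => (σ.Pk, σ.Sk, σ.Enc, σ.Dec, σ.p)) := by
    rintro ⟨a, b, c, d, e⟩ ⟨a', b', c', d', e'⟩ h
    simp only [Prod.mk.injEq] at h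
    obtain ⟨rfl, rfl, rfl, rfl, rfl⟩ := h
    rfl
  have h4 : Countable AS := h3.countable
  have h5 : Nonempty Alg := ⟨⟨fun _ => [], CC.const_polyTime [], 0⟩⟩
  have h6 : Nonempty AS := ⟨⟨h5.some, h5.some, h5.some, h5.some, 0⟩⟩
  exact exists_surjective_nat _

/-! ### The theorem -/

theorem final (ha : P_att) (hl : P_loc) (hg : P_guide) (hr : P_rec) (hw : P_win) (htop : P_top)
    (hd : P_dens) (ho0 : P_owf0) (ho : P_owf2) (hu : P_up) : Main := by
  classical
  obtain ⟨as, has⟩ := exists_as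
  choose q m hT using fun i => ha (as i)
  choose l hl using fun i => hl (as i)
  set k : ℕ → Polynomial ℕ := fun i => Polynomial.C 60 * q i + Polynomial.C 1 with hk
  set a : ℕ → Polynomial ℕ := fun i =>
    Polynomial.C 800 * k i * q i + Polynomial.X + Polynomial.C 1 with hadef
  set t : ℕ → ℕ → ℕ := fun i n => 3 * Nat.size ((a i).eval n) + 4 with ht
  set M : ℕ → Polynomial ℕ := fun i => m i + l i + Polynomial.C 3 * a i + Polynomial.C 5 with hM
  set N : ℕ → Polynomial ℕ := fun i =>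
    Polynomial.C 128 * a i ^ 3 + Polynomial.C 3 * k i * q i with hN
  have hkpos : ∀ i n, 0 < (k i).eval n := by
    intro i n
    rw [hk]
    simp only [Polynomial.eval_add, Polynomial.eval_mul, Polynomial.eval_C]
    omega
  have hkv : ∀ i n, (k i).eval n = 60 * (q i).eval n + 1 := by
    intro i n
    rw [hk]
    simp only [Polynomial.eval_add, Polynomial.eval_mul, Polynomial.eval_C]
  have hav : ∀ i n, (a i).eval n = 800 * (k i).eval n * (q i).eval n + n + 1 := by
    intro i n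
    rw [hadef]
    simp only [Polynomial.eval_add, Polynomial.eval_mul, Polynomial.eval_C, Polynomial.eval_X]
  have hMv : ∀ i n, (M i).eval n = (m i).eval n + (l i).eval n + 3 * (a i).eval n + 5 := by
    intro i n
    rw [hM]
    simp only [Polynomial.eval_add, Polynomial.eval_mul, Polynomial.eval_C]
  have hsz : ∀ x : ℕ, Nat.size x ≤ x := fun x => Nat.size_le.2 Nat.lt_two_pow_self
  have htM : ∀ i n, t i n ≤ (M i).eval n := by
    intro i n
    have h1 := hsz ((a i).eval n)
    rw [hMv]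
    change 3 * Nat.size ((a i).eval n) + 4 ≤ _
    omega
  have hmM : ∀ i n, (m i).eval n ≤ (M i).eval n := by
    intro i n
    rw [hMv]
    omega
  have hlM : ∀ i n, (l i).eval n ≤ (M i).eval n := by
    intro i n
    rw [hMv]
    omega
  have htN : ∀ i n, 2 ^ t i n + 3 * (k i).eval n * (q i).eval n ≤ (N i).eval n := by
    intro i n
    have h1 : 2 ^ Nat.size ((a i).eval n) ≤ 2 * (a i).eval n := by
      have h2 : 0 < (a i).eval n := by rw [hav]; omega
      have h3 : 0 < Nat.size ((a i).eval n) := Nat.size_pos.2 h2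
      obtain ⟨s, hs⟩ : ∃ s, Nat.size ((a i).eval n) = s + 1 := ⟨_, (Nat.succ_pred_eq_of_pos h3).symm⟩
      have h4 : 2 ^ s ≤ (a i).eval n := Nat.lt_size.1 (by omega)
      rw [hs, pow_succ]
      omega
    have h2 : 2 ^ t i n ≤ 128 * (a i).eval n ^ 3 := by
      change 2 ^ (3 * Nat.size ((a i).eval n) + 4) ≤ _
      rw [pow_add, mul_comm 3, pow_mul]
      calc (2 ^ Nat.size ((a i).eval n)) ^ 3 * 2 ^ 4 ≤ (2 * (a i).eval n) ^ 3 * 2 ^ 4 :=
            Nat.mul_le_mul_right _ (Nat.pow_le_pow_left h1 3)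
        _ = 128 * (a i).eval n ^ 3 := by ring
    rw [hN]
    simp only [Polynomial.eval_add, Polynomial.eval_mul, Polynomial.eval_C, Polynomial.eval_pow]
    omega
  -- the attacks
  have hT' : ∀ (i n m' : ℕ) (e : Oracle), ∃ T : Att Bool, (m i).eval n ≤ m' → t i n ≤ m' →
      (∀ pk c, (T pk c).Le (2 ^ t i n + 3 * (k i).eval n * (q i).eval n) ∧
        (T pk c).All fun z => z.length < m') ∧
      ∀ Λ E : Oracle, (∀ u : List Bool, u.length < m' → E u = e u) →
      (prob fun s : (Pos (t i n) m' → Bool) × Bool × Coins ((as i).p.eval n) ×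
          Coins ((as i).p.eval n) =>
        (T (((as i).sch (Ok E (ext Λ s.1))).pk n (List.ofFn s.2.2.1))
          (((as i).sch (Ok E (ext Λ s.1))).ct n (List.ofFn s.2.2.1) (List.ofFn s.2.2.2) s.2.1)).run
          (Ok E (ext Λ s.1)) ≠ s.2.1) ≤
      (prob fun s : (Pos (t i n) m' → Bool) × Bool × Coins ((as i).p.eval n) ×
          Coins ((as i).p.eval n) × Coins ((as i).p.eval n) =>
        ((as i).sch (Ok E (ext Λ s.1))).de n (List.ofFn s.2.2.1) (List.ofFn s.2.2.2.1)
          (List.ofFn s.2.2.2.2) s.2.1 ≠ [s.2.1]) +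
      3 * (((q i).eval n : ℕ) : ℝ) / (((k i).eval n : ℕ) : ℝ) +
        8 * (((k i).eval n : ℕ) : ℝ) * (((q i).eval n : ℕ) : ℝ) / 2 ^ ((t i n - 4) / 3) := by
    intro i n m' e
    by_cases h1 : (m i).eval n ≤ m'
    · by_cases h2 : t i n ≤ m'
      · obtain ⟨T, h3⟩ := hT i n (t i n) ((k i).eval n) m' e (hkpos i n) h1 h2
        exact ⟨T, fun _ _ => h3⟩
      · exact ⟨fun _ _ => DT.ret true, fun _ h => absurd h h2⟩
    · exact ⟨fun _ _ => DT.ret true, fun h => absurd h h1⟩
  choose T hT' using hT'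
  -- the guide
  obtain ⟨E, hE⟩ := hr fun i n m' e y => gbit (T i n m' e (unpair (unpair y).1).1
    (unpair (unpair y).1).2) m' (unpair (unpair y).2).1 (unpair (unpair y).2).2
  set e : ℕ → ℕ → Oracle := fun i n u => if u.length < (M i).eval n then E u else false with he
  set D : ℕ → ℕ → Att Bool := fun i n => T i n ((M i).eval n) (e i n) with hD
  have hDs := fun i n => hT' i n ((M i).eval n) (e i n) (hmM i n) (htM i n)
  have heE : ∀ i n (u : List Bool), u.length < (M i).eval n → E u = e i n u := by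
    intro i n u hu
    rw [he]
    simp only
    rw [if_pos hu]
  choose G hG1 hG2 using fun i => hg i (N i) (M i)
  have hG : ∀ i n (R : Oracle) (pk c : List Bool),
      G i (Ok E R) (pairBits (un n) (pairBits pk c)) = [(D i n pk c).run (Ok E R)] := by
    intro i n R pk c
    refine hG2 i (Ok E R) n pk c (D i n pk c) (((hDs i n).1 pk c).1.mono (htN i n))
      ((hDs i n).1 pk c).2 fun h v => ?_
    rw [Ok_guide, hE]
    simp only [unpair_pairBits]
    rfl
  -- the null sets
  have hnull : ∀ i n₀, ranO {R | ∀ n ≥ n₀, eD (as i) n (Ok E R) ≤ 1 / 100 ∧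
      1 / 8 < wE (as i) n (D i n) (Ok E R)} = 0 := by
    intro i n₀
    refine null_of hw htop hd (fun n R => wE (as i) n (D i n) (Ok E R))
      (fun n R => eD (as i) n (Ok E R)) (fun n => (M i).eval n) (fun n => t i n) ?_
      (fun n R => prob_nonneg _) (fun n R => prob_le_one _) ?_ ?_ n₀
    · intro n R R' hR
      have h1 : ∀ z : List Bool, z.length < (M i).eval n → Ok E R z = Ok E R' z :=
        Ok_congr (fun _ _ => rfl) hR
      have h2 := hl i n (Ok E R) (Ok E R') fun z hz => h1 z (hz.trans_le (hlM i n))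
      constructor
      · refine prob_congr fun s => ?_
        rw [(h2 s.2.1 s.2.2 s.2.2 s.1).1, (h2 s.2.1 s.2.2 s.2.2 s.1).2.1]
        set D' := D i n (((as i).sch (Ok E R')).pk n (List.ofFn s.2.1))
          (((as i).sch (Ok E R')).ct n (List.ofFn s.2.1) (List.ofFn s.2.2) s.1) with hD'
        have h3 : D'.run (Ok E R') = D'.run (Ok E R) := (DT.run_congr fun z hz =>
          (h1 z (DT.All.qs _ ((hDs i n).1 _ _).2 z hz)).symm).1
        rw [h3]
      · refine prob_congr fun s => ?_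
        rw [(h2 s.2.1 s.2.2.1 s.2.2.2 s.1).2.2]
    · intro N'
      refine ⟨2 ^ N', fun n hn => ?_⟩
      change N' ≤ 3 * Nat.size ((a i).eval n) + 4
      have h1 : N' < Nat.size ((a i).eval n) := Nat.lt_size.2 (by rw [hav]; omega)
      omega
    · intro n Λ
      have h1 := (hDs i n).2 Λ E (heE i n)
      rw [prob_prod, prob_prod] at h1
      refine h1.trans ?_
      have hq : (0 : ℝ) ≤ (((q i).eval n : ℕ) : ℝ) := Nat.cast_nonneg _
      have hk0 : (0 : ℝ) < (((k i).eval n : ℕ) : ℝ) := by exact_mod_cast hkpos i n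
      have h2 : 3 * (((q i).eval n : ℕ) : ℝ) / (((k i).eval n : ℕ) : ℝ) ≤ 1 / 20 := by
        rw [div_le_div_iff₀ hk0 (by norm_num), hkv]
        push_cast
        linarith
      have h3 : 8 * (((k i).eval n : ℕ) : ℝ) * (((q i).eval n : ℕ) : ℝ) / 2 ^ ((t i n - 4) / 3) ≤
          1 / 100 := by
        have h4 : (t i n - 4) / 3 = Nat.size ((a i).eval n) := by
          change (3 * Nat.size ((a i).eval n) + 4 - 4) / 3 = _
          omega
        rw [h4]
        have h5 : (a i).eval n < 2 ^ Nat.size ((a i).eval n) := Nat.lt_size_self _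
        have h6 : 800 * (k i).eval n * (q i).eval n ≤ 2 ^ Nat.size ((a i).eval n) := by
          rw [hav] at h5 ⊢
          omega
        have h7 : 800 * (((k i).eval n : ℕ) : ℝ) * (((q i).eval n : ℕ) : ℝ) ≤
            2 ^ Nat.size ((a i).eval n) := by exact_mod_cast h6
        rw [div_le_div_iff₀ (by positivity) (by norm_num)]
        linarith
      have e1 : (∑ ω : Pos (t i n) ((M i).eval n) → Bool, prob fun s : Bool ×
          Coins ((as i).p.eval n) × Coins ((as i).p.eval n) × Coins ((as i).p.eval n) =>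
          ((as i).sch (Ok E (ext Λ ω))).de n (List.ofFn s.2.1) (List.ofFn s.2.2.1)
            (List.ofFn s.2.2.2) s.1 ≠ [s.1]) =
          ∑ ω : Pos (t i n) ((M i).eval n) → Bool, eD (as i) n (Ok E (ext Λ ω)) := rfl
      rw [← e1]
      linarith
  -- the choice of the random bits
  have hae : ∀ᵐ R ∂ranO, (∀ i n₀, R ∉ {R | ∀ n ≥ n₀, eD (as i) n (Ok E R) ≤ 1 / 100 ∧
      1 / 8 < wE (as i) n (D i n) (Ok E R)}) ∧ ∀ (M : Alg) (p : Polynomial ℕ),
      ∀ᶠ n : ℕ in Filter.atTop, invPr (fO (Ok E R)) (ac M (Ok E R)) p n ≤ 1 / 2 ^ (n / 2) := by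
    refine Filter.Eventually.and ?_ (ho E)
    rw [ae_all_iff]
    intro i
    rw [ae_all_iff]
    intro n₀
    exact measure_eq_zero_iff_ae_notMem.1 (hnull i n₀)
  obtain ⟨R, hR1, hR2⟩ := hae.exists
  refine ⟨Ok E R, hu E R, ⟨fO (Ok E R), ho0 _, ?_⟩, ?_⟩
  · intro I p hI
    obtain ⟨M', hM'⟩ := hI
    have : ac M' (Ok E R) = I := funext fun x => by rw [ac, hM' x]; rfl
    rw [← this]
    exact hR2 M' p
  · intro S hS herr
    obtain ⟨⟨m1, h1⟩, ⟨m2, h2⟩, ⟨m3, h3⟩, ⟨m4, h4⟩⟩ := hS
    obtain ⟨i, hi⟩ := has ⟨m1, m2, m3, m4, S.p⟩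
    have hSi : (as i).sch (Ok E R) = S := by
      rw [hi]
      have e1 : ac m1 (Ok E R) = S.Pk := funext fun x => by rw [ac, h1 x]; rfl
      have e2 : ac m2 (Ok E R) = S.Sk := funext fun x => by rw [ac, h2 x]; rfl
      have e3 : ac m3 (Ok E R) = S.Enc := funext fun x => by rw [ac, h3 x]; rfl
      have e4 : ac m4 (Ok E R) = S.Dec := funext fun x => by rw [ac, h4 x]; rfl
      change Scheme.mk (ac m1 (Ok E R)) (ac m2 (Ok E R)) (ac m3 (Ok E R)) (ac m4 (Ok E R)) S.p = S
      rw [e1, e2, e3, e4]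
    refine ⟨fun y => G i (Ok E R) (unpair y).2,
      IsFP.comp (hG1 i _) (IsFP.of_poly (Poly.snd poly_unpair)), ?_⟩
    rw [Filter.frequently_atTop]
    intro n₁
    obtain ⟨n₂, hn₂⟩ := Filter.eventually_atTop.1 herr
    have h5 := hR1 i (max n₁ n₂)
    simp only [Set.mem_ofPred_eq, not_forall] at h5
    obtain ⟨n, hn, h6⟩ := h5
    refine ⟨n, (le_max_left _ _).trans hn, ?_⟩
    have h7 := hn₂ n ((le_max_right _ _).trans hn)
    have h8 : eD (as i) n (Ok E R) ≤ 1 / 100 := by
      rw [eD_eq, hSi]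
      have := h7 true
      have := h7 false
      linarith
    have h9 : wE (as i) n (D i n) (Ok E R) ≤ 1 / 8 := by
      by_contra h10
      exact h6 ⟨h8, not_le.1 h10⟩
    rw [wE_eq (as i) n (D i n) (Ok E R) (fun y => G i (Ok E R) (unpair y).2) (fun pk c => by
      simp only [unpair_pairBits]
      exact hG i n R pk c), hSi] at h9
    unfold Scheme.adv
    refine le_trans ?_ (le_abs_self _)
    linarith

end Pool.Agent.W2helper56.PK
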