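import Pool.Agent.W2helper56.PK.Defs
import Pool.Agent.W2helper56.PK.Tree
import Pool.Agent.H620R2.Gauge.C
import Pool.Agent.H620R2.Gauge.M

/-!
# The oracle

Three columns: random bits, the guide `E`, and the certificates.
-/

set_option autoImplicit false

namespace Pool.Agent.W2helper56.PK

open Pool.Agent.NPC Pool.Agent.H622R2 Pool.Agent.H620R2.Gauge

/-- two oracles in one -/
def join (A E : Oracle) : Oracle
  | [] => false
  | false :: z => A z
  | true :: z => E z

/-! ### Polynomial space -/

/-- an enumeration of the algorithms with a bounded memory -/
noncomputable def sg : ℕ → SAlg × Polynomial ℕ := CC.exists_enum.choose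

theorem sg_surj : Function.Surjective sg := CC.exists_enum.choose_spec

/-- a bound for the next action -/
noncomputable def sb (e : ℕ) : Polynomial ℕ := (CC.act_length (sg e).1 (sg e).2).choose

theorem sb_spec (e : ℕ) : ∀ x a : List Bool, a.length ≤ (sg e).2.eval x.length →
    ((sg e).1.act (pairBits x a)).length ≤ (sb e).eval x.length :=
  (CC.act_length (sg e).1 (sg e).2).choose_spec

/-- acceptance by the `e`-th algorithm, with short questions -/
def AccL (e : ℕ) (O : Oracle) (u : List Bool) : Prop :=
  CC.Acc (sg e).1 (CC.cut ((sb e).eval u.length) O) u

theorem AccL_congr (e : ℕ) {O O' : Oracle} {u : List Bool}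
    (h : ∀ q : List Bool, q.length ≤ (sb e).eval u.length → O q = O' q) :
    AccL e O u ↔ AccL e O' u := by
  have : CC.cut ((sb e).eval u.length) O = CC.cut ((sb e).eval u.length) O' := by
    funext z
    unfold CC.cut
    split_ifs with hz
    · exact h z hz
    · rfl
  unfold AccL
  rw [this]

theorem exists_index {O : Oracle} {L : Set (List Bool)} (h : IsPSPACE O L) :
    ∃ e, ∀ x, x ∈ L ↔ AccL e O x := by
  obtain ⟨M, p, hM⟩ := h
  obtain ⟨e, he⟩ := sg_surj (M, p)
  refine ⟨e, fun x => ?_⟩
  have hbe := sb_spec e
  unfold AccL
  rw [he] at hbe ⊢
  obtain ⟨hM1, s, z, hs, hz, hL⟩ := hM x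
  have hcong : ∀ s, M.Reach (CC.cut ((sb e).eval x.length) O) x s ↔ M.Reach O x s := by
    refine CC.reach_congr (fun s => s.length ≤ p.eval x.length) hM1 ?_
    intro s q h1 h2
    have h3 := hbe x s h1
    dsimp only at h3
    rw [h2, List.length_cons] at h3
    unfold CC.cut
    rw [if_pos (by omega)]
  constructor
  · intro hx
    refine ⟨s, (hcong s).2 hs, ?_⟩
    dsimp only
    rw [hz, hL.1 hx]
  · rintro ⟨t, ht, ht2⟩
    have hst := CC.reach_unique hs ((hcong t).1 ht) ⟨_, hz⟩ ⟨_, ht2⟩
    dsimp only at ht2
    rw [hst, ht2] at hz
    simp only [List.cons.injEq, true_and] at hz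
    exact hL.2 hz.symm

/-! ### The oracle -/

/-- the statement `s = ⟨1^e, ⟨u, τ⟩⟩`: the `e`-th algorithm accepts `u`, and `s` is long -/
def Tr (s : List Bool) (O : Oracle) : Prop :=
  (sb (unpair s).1.length).eval (unpair (unpair s).2).1.length ≤ s.length ∧
    AccL (unpair s).1.length O (unpair (unpair s).2).1

theorem Tr_congr {s : List Bool} {O O' : Oracle} (h : ∀ q : List Bool, q.length ≤ s.length →
    O q = O' q) : Tr s O ↔ Tr s O' := by
  unfold Tr
  refine and_congr_right fun h1 => AccL_congr _ fun q hq => h q (hq.trans h1)

/-- the `i`-th bit of the certificate of `s` is the random bit at this string; its length is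
`3 |s| + 4` for `i < |s|` -/
def cpos (s : List Bool) (i : ℕ) : List Bool :=
  true :: pairBits s (List.replicate i true ++ List.replicate (s.length + 2 - i) false)

/-- the certificate of `s` -/
def crt (R : Oracle) (s : List Bool) : List Bool :=
  (List.range s.length).map fun i => R (cpos s i)

open Classical in
/-- the column with the certificates: `⟨s, b c⟩`, where `c` is the certificate of `s` and `b` is the
truth value of `s` -/
noncomputable def Ck (E R : Oracle) (z : List Bool) : Bool :=
  decide (∃ (s : List Bool) (b : Bool), z = pairBits s (b :: crt R s) ∧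
    (b = true ↔ Tr s (join (fun u => R (false :: u)) (join E
      (fun u => if _h : u.length < z.length then Ck E R u else false)))))
termination_by z.length

/-- the oracle: random bits, guide, certificates -/
noncomputable def Ok (E R : Oracle) : Oracle := join (fun u => R (false :: u)) (join E (Ck E R))

theorem Ok_false (E R : Oracle) (u : List Bool) : Ok E R (false :: u) = R (false :: u) := rfl

theorem Ok_guide (E R : Oracle) (u : List Bool) : Ok E R (true :: false :: u) = E u := rfl

theorem Ok_cert (E R : Oracle) (u : List Bool) : Ok E R (true :: true :: u) = Ck E R u := rfl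

theorem length_crt (R : Oracle) (s : List Bool) : (crt R s).length = s.length := by simp [crt]

theorem length_cpos {s : List Bool} {i : ℕ} (hi : i < s.length) :
    (cpos s i).length = 3 * s.length + 4 := by
  unfold cpos
  rw [List.length_cons, length_pairBits, List.length_append, List.length_replicate,
    List.length_replicate]
  omega

/-- the values at the certificates -/
theorem Ck_iff (E R : Oracle) (z : List Bool) : Ck E R z = true ↔
    ∃ (s : List Bool) (b : Bool), z = pairBits s (b :: crt R s) ∧ (b = true ↔ Tr s (Ok E R)) := by
  rw [Ck]
  simp only [decide_eq_true_eq]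
  refine exists_congr fun s => exists_congr fun b => and_congr_right fun hz => ?_
  refine iff_congr Iff.rfl (Tr_congr fun q hq => ?_)
  rcases q with _ | ⟨c, q⟩
  · rfl
  cases c with
  | false => rfl
  | true =>
    rcases q with _ | ⟨c, q⟩
    · rfl
    cases c with
    | false => rfl
    | true =>
      change (if _h : q.length < z.length then Ck E R q else false) = Ck E R q
      rw [dif_pos]
      rw [hz, length_pairBits]
      simp only [List.length_cons] at hq
      omega

theorem crt_congr {R R' : Oracle} {s : List Bool} (h : ∀ u : List Bool,
    u.length = 3 * s.length + 4 → R u = R' u) : crt R s = crt R' s :=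
  List.map_congr_left fun _ hi => h _ (length_cpos (List.mem_range.1 hi))

/-- the values at short strings depend on short strings only -/
theorem Ok_congr {t : ℕ} {E E' R R' : Oracle} (hE : ∀ u : List Bool, u.length < t → E u = E' u)
    (hR : ∀ u : List Bool, u.length < t → R u = R' u) : ∀ q : List Bool, q.length < t →
    Ok E R q = Ok E' R' q := by
  have key : ∀ (n : ℕ) (q : List Bool), q.length = n → q.length < t →
      Ok E R q = Ok E' R' q := by
    intro n
    induction n using Nat.strong_induction_on with
    | _ n ih =>
      intro q hn hq
      rcases q with _ | ⟨c, q⟩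
      · rfl
      cases c with
      | false => exact hR _ hq
      | true =>
        rcases q with _ | ⟨c, q⟩
        · rfl
        cases c with
        | false => exact hE _ (by simp only [List.length_cons] at hq; omega)
        | true =>
          rw [Ok_cert, Ok_cert, Bool.eq_iff_iff, Ck_iff, Ck_iff]
          simp only [List.length_cons] at hn hq
          have h1 : ∀ s : List Bool, s.length + s.length + s.length + 2 ≤ q.length →
              crt R s = crt R' s := fun s hs => crt_congr fun u hu => hR u (by omega)
          have h2 : ∀ s : List Bool, s.length < n → (Tr s (Ok E R) ↔ Tr s (Ok E' R')) :=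
            fun s hs => Tr_congr fun r hr => ih r.length (by omega) r rfl (by omega)
          refine exists_congr fun s => exists_congr fun b => ?_
          constructor
          · rintro ⟨h3, h4⟩
            have h5 := congrArg List.length h3
            rw [length_pairBits, List.length_cons, length_crt] at h5
            rw [← h1 s (by omega), ← h2 s (by omega)]
            exact ⟨h3, h4⟩
          · rintro ⟨h3, h4⟩
            have h5 := congrArg List.length h3
            rw [length_pairBits, List.length_cons, length_crt] at h5
            rw [h1 s (by omega), h2 s (by omega)]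
            exact ⟨h3, h4⟩
  exact fun q => key _ q rfl

/-- the oracle without the certificates of length at least `t` -/
def blind (t : ℕ) (O : Oracle) : Oracle := fun z =>
  if t ≤ z.length ∧ z.take 2 = [true, true] then false else O z

/-! ### Windows -/

/-- the strings of length at least `t` and less than `m` -/
def Pos (t m : ℕ) : Type := {u : List Bool // t ≤ u.length ∧ u.length < m}

instance (t m : ℕ) : Finite (Pos t m) :=
  ((List.finite_length_lt Bool m).subset fun _ h => h.2).to_subtype

noncomputable instance (t m : ℕ) : Fintype (Pos t m) := Fintype.ofFinite _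

instance (t m : ℕ) : DecidableEq (Pos t m) := inferInstanceAs (DecidableEq (Subtype _))

/-- the oracle `Λ`, with the values in the window replaced by `ω` -/
def ext {t m : ℕ} (Λ : Oracle) (ω : Pos t m → Bool) : Oracle := fun u =>
  if h : t ≤ u.length ∧ u.length < m then ω ⟨u, h⟩ else Λ u

/-- the oracles which agree with `Λ` at the strings of length less than `t` -/
def cyl (Λ : Oracle) (t : ℕ) : Set Oracle := {R | ∀ u : List Bool, u.length < t → R u = Λ u}

end Pool.Agent.W2helper56.PK
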