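import Pool.Agent.W2helper56.PK.Orc

/-!
# The pieces of the proof: exact statements

Every definition `P_...` below is one piece; prove `theorem p_... : P_...` in a file of your own
(pieces which need others take them as hypotheses, e.g. `theorem p_step (h : P_avg) : P_step`).

Goal: an oracle relative to which `PSPACE = UP ∩ coUP`, one-way functions exist and public-key
encryption does not exist (`Main` at the end). Useful: `Tree.lean` (all basic facts about decision
trees), `Orc.lean` (`Ok_congr`, `Ck_iff`, `length_cpos`, ...), `Pool.Agent.H620R2.Gauge.A2`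
(`IsFP.tt`), `Pool.Agent.W2helper58.GU.Mach` (`mach`), `Pool.Agent.H622R2.CoNP` (`poly_pairBits`).
-/

set_option autoImplicit false

namespace Pool.Agent.W2helper56.PK

open Pool.Agent.NPC Pool.Agent.H620R2.Gauge MeasureTheory

/-! ### A. The attack in the finite model

`X` is the finite set of random bits. A question `z` is about the random bit `x` if
`g z = Sum.inl x`, and has the fixed answer `b` if `g z = Sum.inr b`. `A` is the set of the
outcomes of the coins for the keys (this includes the coins of the decryption), and `B` the set of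
the outcomes of the coins for the encryption. -/

/-- a public-key encryption scheme given by decision trees -/
structure Sch (X A B : Type) : Type where
  /-- what the questions are about -/
  g : List Bool → X ⊕ Bool
  /-- the public and the secret key -/
  gen : A → DT (List Bool) (List Bool × List Bool)
  /-- encryption: coins, public key, bit -/
  enc : B → List Bool → Bool → DT (List Bool) (List Bool)
  /-- decryption: secret key, ciphertext -/
  dec : List Bool → List Bool → DT (List Bool) Bool

/-- what an adversary does with the public key and the ciphertext -/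
abbrev Att (β : Type) : Type := List Bool → List Bool → DT (List Bool) β

namespace Sch

variable {X A B : Type} (S : Sch X A B)

/-- the samples: coins of the keys, random bits of the oracle, the bit, coins of the encryption -/
abbrev Smp (_ : Sch X A B) : Type := A × (X → Bool) × Bool × B

/-- the oracle with the random bits `ω` -/
def orc (ω : X → Bool) : Oracle := fun z => Sum.elim ω id (S.g z)

/-- the public key -/
def pk (t : S.Smp) : List Bool := ((S.gen t.1).run (S.orc t.2.1)).1

/-- the secret key -/
def sk (t : S.Smp) : List Bool := ((S.gen t.1).run (S.orc t.2.1)).2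

/-- the ciphertext -/
def ct (t : S.Smp) : List Bool := (S.enc t.2.2.2 (S.pk t) t.2.2.1).run (S.orc t.2.1)

/-- the decryption is wrong -/
def Wrong (t : S.Smp) : Prop := (S.dec (S.sk t) (S.ct t)).run (S.orc t.2.1) ≠ t.2.2.1

/-- the guess of the adversary is wrong -/
def WrongG (G : Att Bool) (t : S.Smp) : Prop := (G (S.pk t) (S.ct t)).run (S.orc t.2.1) ≠ t.2.2.1

variable [DecidableEq X]

/-- the random bits which are asked by a list of questions -/
def pos (l : List (List Bool)) : Finset X := (l.filterMap fun z => (S.g z).getLeft?).toFinset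

/-- the random bits asked by the key generation -/
def QA (t : S.Smp) : Finset X := S.pos ((S.gen t.1).qs (S.orc t.2.1))

/-- the random bits asked by the encryption -/
def QB (t : S.Smp) : Finset X := S.pos ((S.enc t.2.2.2 (S.pk t) t.2.2.1).qs (S.orc t.2.1))

/-- the random bits asked by the adversary -/
def known (P : Att Unit) (t : S.Smp) : Finset X := S.pos ((P (S.pk t) (S.ct t)).qs (S.orc t.2.1))

omit [DecidableEq X] in
/-- all computations ask at most `q` questions, with the property `G` -/
structure Bd (S : Sch X A B) (q : ℕ) (G : List Bool → Prop) : Prop where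
  gen_le : ∀ a, (S.gen a).Le q
  enc_le : ∀ v k b, (S.enc v k b).Le q
  dec_le : ∀ k c, (S.dec k c).Le q
  gen_all : ∀ a, (S.gen a).All G
  enc_all : ∀ v k b, (S.enc v k b).All G
  dec_all : ∀ k c, (S.dec k c).All G

end Sch

/-- A1. An averaging argument: for every state `s` there is `u ∈ C s` such that `bad t u` holds for
at most as many `t` in the state `s` as `W t`. -/
def P_avg : Prop := ∀ (T U St : Type) [Fintype T] [Fintype U] [Nonempty U] (st : T → St)
  (C : St → U → Prop) (bad : T → U → Prop) (W : T → Prop),
  (∀ t, ∃ u, C (st t) u) →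
  (∀ s, Nat.card {p : T × U // st p.1 = s ∧ C s p.2 ∧ bad p.1 p.2} ≤
    Nat.card {p : T × U // st p.1 = s ∧ C s p.2 ∧ W p.1}) →
  ∃ τ : St → U, (∀ t, C (st t) (τ (st t))) ∧
    Nat.card {t // bad t (τ (st t))} ≤ Nat.card {t // W t}

/-- A2. There is an adversary which learns nearly all random bits which are asked both by the key
generation and by the encryption. Proof: it encrypts `k - 1` random bits itself. Let `B` be the
sequence of the `k` samples `(b_j, v_j)` for the encryption, the last one is the real one. For
every `j` let `E_j` be the event that `QB_j ∩ QA` is not contained in the union of the other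
`QB_l`. All `E_j` have the same number of elements (swap `j` and the last one), and every sample
is in at most `|QA| ≤ q` of them. Finally fix the coins of the adversary by averaging. -/
def P_bobs : Prop := ∀ (X A B : Type) [Fintype X] [DecidableEq X] [Fintype A] [Fintype B]
  [Nonempty A] [Nonempty B] (S : Sch X A B) (q k : ℕ) (G : List Bool → Prop), 0 < k → S.Bd q G →
  ∃ P : Att Unit, (∀ pk c, (P pk c).Le (k * q) ∧ (P pk c).All G) ∧
    k * Nat.card {t : S.Smp // ∃ x, x ∈ S.QB t ∧ x ∈ S.QA t ∧ x ∉ S.known P t} ≤
      q * Nat.card S.Smp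

/-- A3. One step of the attack. The adversary knows the state `s`: public key `pk`, ciphertext `c`,
and the list `L` of the questions and answers of `P`. Let `C s` be the set of the `u' = (a', ω')`
which are consistent with it: `gen a'` gives the public key `pk` with the oracle `orc ω'`, which
agrees with `L`. For a suitable `u' = τ s`, the new adversary `P'` asks all questions of `gen a'`
(with the oracle `orc ω'`), and then decrypts `c` with the secret key `sk'` of `u'`, where
questions about the bits `Q' = pos (questions of gen a')` are answered with `ω'` and all other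
questions are asked; `Gs` guesses the result. Proof: `P_avg` with the set of samples, `U = A ×
(X → Bool)`, and `bad t u'`: the guess is wrong and `QB ∩ (QA ∪ Q')` and `QA ∩ (questions really
asked by the decryption)` are contained in `known P`. If `ω` is the real oracle, `Q = QA`, then
swap `ω` and `ω'` on `Q ∪ Q'`: `(a, ω), (a', ω') ↦ (a', ω''), (a, ω''')`. This keeps the state, and
the guess becomes the real decryption. -/
def P_step : Prop := ∀ (X A B : Type) [Fintype X] [DecidableEq X] [Fintype A] [Fintype B]
  [Nonempty A] [Nonempty B] (S : Sch X A B) (q n : ℕ) (G : List Bool → Prop), S.Bd q G →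
  ∀ P : Att Unit, (∀ pk c, (P pk c).Le n ∧ (P pk c).All G) →
  ∃ (P' : Att Unit) (Gs : Att Bool),
    (∀ pk c, (P' pk c).Le (n + 2 * q) ∧ (P' pk c).All G) ∧
    (∀ pk c, (Gs pk c).Le (n + 2 * q) ∧ (Gs pk c).All G) ∧
    (∀ t, S.known P t ⊆ S.known P' t) ∧
    Nat.card {t : S.Smp // S.WrongG Gs t} ≤ Nat.card {t : S.Smp // S.Wrong t} +
      Nat.card {t : S.Smp // ∃ x, x ∈ S.QB t ∧ x ∈ S.QA t ∧ x ∉ S.known P t} +
      Nat.card {t : S.Smp // ∃ x, x ∈ S.QB t ∧ x ∈ S.known P' t ∧ x ∉ S.known P t} +
      Nat.card {t : S.Smp // ∃ x, x ∈ S.QA t ∧ x ∈ S.known P' t ∧ x ∉ S.known P t}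

/-- A4. The attack: start with `P_bobs`, then `k` steps; take the best guess. For every sample
there are at most `|QB| ≤ q` steps in which something in `QB` is learned, and at most `q` steps in
which something in `QA` is learned. -/
def P_it : Prop := ∀ (X A B : Type) [Fintype X] [DecidableEq X] [Fintype A] [Fintype B]
  [Nonempty A] [Nonempty B] (S : Sch X A B) (q k : ℕ) (G : List Bool → Prop), 0 < k → S.Bd q G →
  ∃ Eve : Att Bool, (∀ pk c, (Eve pk c).Le (3 * k * q) ∧ (Eve pk c).All G) ∧
    k * Nat.card {t : S.Smp // S.WrongG Eve t} ≤
      k * Nat.card {t : S.Smp // S.Wrong t} + 3 * q * Nat.card S.Smp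

/-! ### B. Measure and topology -/

/-- B1. The probability of events which depend on finitely many bits, in a cylinder. -/
def P_win : Prop := ∀ (Λ : Oracle) (t m : ℕ) (P : Oracle → Prop),
  (∀ R R' : Oracle, (∀ u : List Bool, u.length < m → R u = R' u) → (P R ↔ P R')) →
  ranO (cyl Λ t ∩ {R | P R}) =
    ENNReal.ofReal (prob fun ω : Pos t m → Bool => P (ext Λ ω)) * ranO (cyl Λ t)

/-- B2. Cylinders have positive measure, and local conditions are closed. -/
def P_top : Prop := (∀ (Λ : Oracle) (t : ℕ), 0 < ranO (cyl Λ t)) ∧
  ∀ (m : ℕ) (P : Oracle → Prop),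
    (∀ R R' : Oracle, (∀ u : List Bool, u.length < m → R u = R' u) → (P R ↔ P R')) →
    IsClosed {R | P R}

/-- B3. Density: the closed set `S` is the intersection of the decreasing sets
`U t = ⋃ cyl Λ t` (over the `Λ` with `cyl Λ t ∩ S ≠ ∅`), whose measures converge to that of `S`. -/
def P_dens : Prop := ∀ S : Set Oracle, IsClosed S → 0 < ranO S →
  ∃ t₀ : ℕ, ∀ t ≥ t₀, ∃ Λ : Oracle,
    ENNReal.ofReal (99 / 100) * ranO (cyl Λ t) ≤ ranO (cyl Λ t ∩ S)

/-! ### C. The certificates do not help -/

/-- C1. With the answers of the blind oracle, the questions do not depend on the random bits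
`true :: u` with at least `t` letters; for fixed other bits, every question is a correct
certificate (of length at least `t`) with probability at most `2^(-(t-4)/3)`. -/
def P_hyb : Prop := ∀ (E Λ : Oracle) (a t m N : ℕ) (β : Type) (D : DT (List Bool) β), a ≤ t →
  D.Le N → D.All (fun z => z.length < m) →
  (prob fun ω : Pos a m → Bool =>
    D.run (Ok E (ext Λ ω)) ≠ D.run (blind t (Ok E (ext Λ ω)))) ≤ N / 2 ^ ((t - 4) / 3)

/-- C2. `PSPACE = UP ∩ coUP`: use `exists_index`, the statement `⟨1^e, ⟨x, 1^(sb e |x|)⟩⟩` and the
question `true :: true :: ⟨s, b w⟩`. -/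
def P_up : Prop := ∀ (E R : Oracle) (L : Set (List Bool)), IsPSPACE (Ok E R) L →
  IsUP (Ok E R) L ∧ IsUP (Ok E R) Lᶜ

/-! ### D. The one-way function -/

/-- the random bits for `x`; their length is `5 |x| + 2` -/
def bpos (x : List Bool) (j : ℕ) : List Bool :=
  false :: pairBits x (List.replicate j true ++ List.replicate (3 * x.length - j) false)

/-- the one-way function -/
def fO (O : Oracle) (x : List Bool) : List Bool :=
  (List.range (3 * x.length)).map fun j => O (bpos x j)

/-- D0. -/
def P_owf0 : Prop := ∀ O : Oracle, IsFP O (fO O)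

/-- D1. One-wayness in the blind world. Proof: let `x` be random and `y = fO x`. Replace the bits
for `x` by fresh random bits; then the run on `y` does not depend on `x`. The adversary can only
succeed if it asks a bit for `x` (probability at most `q / 2^n`), if its output is `x`
(`1 / 2^n`), or if its output `x' ≠ x` satisfies `fO x' = y` (`2^n / 2^(3n)`). -/
def P_owf1 : Prop := ∀ (E Λ : Oracle) (n m q : ℕ) (I : List Bool → DT (List Bool) (List Bool)),
  5 * n + 2 < m → (∀ y, (I y).Le q) →
  (prob fun t : Coins n × (Pos 0 m → Bool) =>
    fO (blind (5 * n + 2) (Ok E (ext Λ t.2)))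
      ((I (fO (blind (5 * n + 2) (Ok E (ext Λ t.2))) (List.ofFn t.1))).run
        (blind (5 * n + 2) (Ok E (ext Λ t.2)))) =
      fO (blind (5 * n + 2) (Ok E (ext Λ t.2))) (List.ofFn t.1)) ≤ (q + 2) / 2 ^ n

/-- D2. One-wayness for almost every choice of the random bits: from `P_owf1`, `P_hyb` (with
`a = 0`, `t = 5 n + 2`) and `P_win` (with `t = 0`) the expectation of `invPr` is at most
`poly (n) / 2^n`; use Markov's inequality, the Borel-Cantelli lemma and the countability of `Alg`
and `Polynomial ℕ` (`CC.poly_countable`, `countable_polyTime`). -/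
def P_owf2 : Prop := ∀ E : Oracle, ∀ᵐ R ∂ranO, ∀ (M : Alg) (p : Polynomial ℕ),
  ∀ᶠ n : ℕ in Filter.atTop, invPr (fO (Ok E R)) (ac M (Ok E R)) p n ≤ 1 / 2 ^ (n / 2)

/-! ### E. The guide -/

/-- the header of the questions to the guide -/
def hdr (i n m : ℕ) : List Bool := pairBits (un i) (pairBits (un n) (un m))

/-- the code of a string of length less than `m`, a string of length `m` -/
def cod (m : ℕ) (z : List Bool) : List Bool := z ++ true :: List.replicate (m - 1 - z.length) false

/-- what the guide says, if the answers to the questions of `D` so far are `h` and the first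
`|v|` bits of the code of the next question are known -/
def gbit (D : DT (List Bool) Bool) (m : ℕ) (h v : List Bool) : Bool :=
  match D.at h with
  | DT.ret b => b
  | DT.ask z _ => (cod m z).getD v.length false

/-- E1. The guided machine: in each of `N n` rounds it asks the guide `m n` times for the next bit
of the code of the next question, asks this question, and adds the answer to `h`. At the end it
asks the guide once more, for the result. Use `Pool.Agent.W2helper58.GU.mach` with the state
`(h, v)`. The function `G O` may be anything at other inputs. -/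
def P_guide : Prop := ∀ (i : ℕ) (N m : Polynomial ℕ), ∃ G : Oracle → List Bool → List Bool,
  (∀ O : Oracle, IsFP O (G O)) ∧
  ∀ (O : Oracle) (n : ℕ) (pk c : List Bool) (D : DT (List Bool) Bool), D.Le (N.eval n) →
    D.All (fun z => z.length < m.eval n) →
    (∀ h v : List Bool, O (true :: false :: pairBits (hdr i n (m.eval n))
      (pairBits (pairBits pk c) (pairBits h v))) = gbit D (m.eval n) h v) →
    G O (pairBits (un n) (pairBits pk c)) = [D.run O]

/-- E2. Recursion on the length: the header is longer than `m`. -/
def P_rec : Prop := ∀ F : ℕ → ℕ → ℕ → Oracle → List Bool → Bool, ∃ E : Oracle,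
  ∀ (i n m : ℕ) (y : List Bool), E (pairBits (hdr i n m) y) =
    F i n m (fun u => if u.length < m then E u else false) y

/-- E3. Read all short strings. -/
def P_tab : Prop := ∀ t : ℕ, ∃ D : DT (List Bool) Oracle, D.Le (2 ^ t) ∧
  D.All (fun z => z.length < t) ∧ ∀ O : Oracle, D.run O = fun z => if z.length < t then O z else false

/-! ### F. The attack in the real world -/

/-- a scheme given by algorithms -/
structure AS : Type where
  /-- public key -/
  Pk : Alg
  /-- secret key -/
  Sk : Alg
  /-- encryption -/
  Enc : Alg
  /-- decryption -/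
  Dec : Alg
  /-- the number of coins -/
  p : Polynomial ℕ

/-- the scheme with the oracle `O` -/
def AS.sch (σ : AS) (O : Oracle) : Scheme :=
  ⟨ac σ.Pk O, ac σ.Sk O, ac σ.Enc O, ac σ.Dec O, σ.p⟩

/-- F1. The attack for the scheme `σ` with the security parameter `n`, if the random bits at the
strings of length in `[t, m')` are random and the others are fixed. The adversary `T` first reads
all strings of length less than `t` (`P_tab`), and continues with the adversary of `P_it` for this
table. The scheme `S : Sch (Pos t m') (Coins × Coins) Coins` is given by the blind oracle: `g z` is the table for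
`|z| < t`, `Sum.inl z` for `z = false :: u` in the window, `e u` for `z = true :: false :: u`, and
`false` otherwise (so `S.orc ω = blind t (Ok e (ext Λ ω))` at the strings of length `< m'` by
`Ok_congr`). Cut the trees of `σ` at long inputs. Use `P_hyb` for the two experiments as a whole
(the questions for the table are the same in both worlds, so they do not count). -/
def P_att : Prop := ∀ σ : AS, ∃ q m : Polynomial ℕ, ∀ (n t k m' : ℕ) (e : Oracle), 0 < k →
  m.eval n ≤ m' → t ≤ m' → ∃ T : Att Bool,
    (∀ pk c, (T pk c).Le (2 ^ t + 3 * k * q.eval n) ∧ (T pk c).All fun z => z.length < m') ∧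
    ∀ Λ E : Oracle, (∀ u : List Bool, u.length < m' → E u = e u) →
      (prob fun s : (Pos t m' → Bool) × Bool × Coins (σ.p.eval n) × Coins (σ.p.eval n) =>
        (T ((σ.sch (Ok E (ext Λ s.1))).pk n (List.ofFn s.2.2.1))
          ((σ.sch (Ok E (ext Λ s.1))).ct n (List.ofFn s.2.2.1) (List.ofFn s.2.2.2) s.2.1)).run
          (Ok E (ext Λ s.1)) ≠ s.2.1) ≤
      (prob fun s : (Pos t m' → Bool) × Bool × Coins (σ.p.eval n) × Coins (σ.p.eval n) ×
          Coins (σ.p.eval n) =>
        (σ.sch (Ok E (ext Λ s.1))).de n (List.ofFn s.2.2.1) (List.ofFn s.2.2.2.1)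
          (List.ofFn s.2.2.2.2) s.2.1 ≠ [s.2.1]) +
      3 * ((q.eval n : ℕ) : ℝ) / k + 8 * k * ((q.eval n : ℕ) : ℝ) / 2 ^ ((t - 4) / 3)

/-- F2. The values of the scheme depend on short strings only. -/
def P_loc : Prop := ∀ σ : AS, ∃ m : Polynomial ℕ, ∀ (n : ℕ) (O O' : Oracle),
  (∀ z : List Bool, z.length < m.eval n → O z = O' z) →
  ∀ (u v w : Coins (σ.p.eval n)) (b : Bool),
    (σ.sch O).pk n (List.ofFn u) = (σ.sch O').pk n (List.ofFn u) ∧
    (σ.sch O).ct n (List.ofFn u) (List.ofFn v) b = (σ.sch O').ct n (List.ofFn u) (List.ofFn v) b ∧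
    (σ.sch O).de n (List.ofFn u) (List.ofFn v) (List.ofFn w) b =
      (σ.sch O').de n (List.ofFn u) (List.ofFn v) (List.ofFn w) b

/-! ### G. The theorem -/

/-- Relative to `Ok E R`, for a suitable `E` and almost every `R`. The last part: every scheme with
error probabilities at most `1/100` is broken with advantage at least `3/4` for infinitely many
`n`, by a deterministic polynomial-time adversary. -/
def Main : Prop := ∃ O : Oracle,
  (∀ L : Set (List Bool), IsPSPACE O L → IsUP O L ∧ IsUP O Lᶜ) ∧
  (∃ f : List Bool → List Bool, IsFP O f ∧ ∀ (I : List Bool → List Bool) (p : Polynomial ℕ),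
    IsFP O I → ∀ᶠ n : ℕ in Filter.atTop, invPr f I p n ≤ 1 / 2 ^ (n / 2)) ∧
  ∀ S : Scheme, S.InFP O → (∀ᶠ n : ℕ in Filter.atTop, ∀ b, S.err n b ≤ 1 / 100) →
    ∃ A : List Bool → List Bool, IsFP O A ∧ ∃ᶠ n : ℕ in Filter.atTop, 3 / 4 ≤ S.adv A 0 n

end Pool.Agent.W2helper56.PK
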